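import Pool.Agent.Helper88_SA.AsmG
import Pool.Agent.Helper88_SA.AsmD
import Pool.Agent.Helper88_SA.Fin

/-! Silent search-ambush game with K = 56 cells: no equilibrium has an eventually geometric hider
strategy.  The definitions (IsEquilibrium, EventuallyGeometric, payoff) are in
Pool.Agent.Helper88_SA.Base. -/

namespace Pool.Agent.Results.MP_de6679_lc.NoGeometricTail56

theorem result : ∀ (T : ℝ) (p : ℕ → ℝ) (q : Finset ℕ → ℝ),
    SA.IsEquilibrium 56 T p q → ¬ SA.EventuallyGeometric p :=
  SA.gameStmt SA.structStmt SA.dualStmt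

end Pool.Agent.Results.MP_de6679_lc.NoGeometricTail56
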